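import Pool.Agent.Q291.Clq.Cube

/-!
# A finite ordered set with the fixed point property whose iterated clique graphs do not collapse

The face poset of the hemicube (the cell decomposition of the projective plane with four vertices,
six edges and three quadrilaterals) has the fixed point property.  The comparability graph of the
face poset of the cube is a connected triangular double cover of its comparability graph, so none of
the iterated clique graphs of that comparability graph is a single vertex.
-/

set_option autoImplicit false

namespace Pool.Agent.Results.MP_c7efa6_co.ProjectivePlane

open Pool.Agent.Q291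

theorem result : ∃ (P : Type) (_ : PartialOrder P), Finite P ∧ Nonempty P ∧
    (∀ f : P → P, (∀ x y, x ≤ y → f x ≤ f y) → ∃ x, f x = x) ∧
    ∀ n : ℕ, 2 ≤ Nat.card (Clq.K^[n] ⟨P, Clq.compGraph P⟩).1 :=
  ⟨Clq.HC, inferInstance, inferInstance, ⟨(0 : Fin 13)⟩,
    fun f hf => Clq.fpp f (fun x y h => hf x y h), Clq.main⟩

end Pool.Agent.Results.MP_c7efa6_co.ProjectivePlane
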